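import Pool.Agent.J4.H83.FV.Scale

/-!
# Hard disks near close packing: the free volume law up to constants

Hard disks of radius `a` in the plane, close-packing density `ρ₀ = 1 / (2 √3 a²)`, `v₀ = 1 / ρ₀`. There is an
absolute constant `C` such that the limiting free energy per particle satisfies
`|f(ρ) - (log ρ - 2 log (1 - ρ / ρ₀))| ≤ C` for all `0 < ρ < ρ₀`. Hence the pressure `P(v) = -(d/dv) f(1/v)` is
between `1 / (C (v - v₀))` and `C / (v - v₀)` for all `v > v₀` (stated for difference quotients), and in a first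
order phase transition, between `v₁ < v₂`, one has `v₂ - v₀ ≤ C² (v₁ - v₀)`: the jump of the free volume is
at most a bounded factor, up to close packing.

Proof. (1) The truncated Voronoi cell of a disk centre (points nearer to it than to the other centres, and at
distance less than the circumradius `2a/√3` of the triangle of touching disks) has area at least `2 √3 a²`, and if
the excess `E` is small then there are two neighbouring centres below it (to the left and to the right) at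
distance at most `2a + C E`. The sum of the excesses is the free area. (2) The centres are integrated from the top to
the bottom, with exponential weights for the two gaps of each centre: each integral is at most `C δ²`,
`δ = 1 - ρ / ρ₀`; the number of the combinatorial structures is at most `C^N`. (3) Lower bound for the partition
function: squares around the points of a hexagonal lattice. (4) Convexity: mixtures of two densities.
-/

set_option autoImplicit false

open MeasureTheory Set Filter Topology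

namespace Pool.Agent.Results.MP_09cbbd_mp.FreeVolumeLaw

/-- The hard-core function: `1` if the balls of radius `a` at distance `t` do not overlap. -/
noncomputable def S (a t : ℝ) : ℝ := if 2 * a ≤ t then 1 else 0

/-- The partition function `Z(Λ, N) = (1/N!) ∫_{Λ^N} ∏_{i<j} S(|x_i - x_j|) dx` of the cube
`Λ = [0, L]^d` in `ℝ^d`. -/
noncomputable def Z (d : ℕ) (a L : ℝ) (N : ℕ) : ℝ :=
  1 / (N.factorial : ℝ) * ∫ x in {x : Fin N → Fin d → ℝ | ∀ i k, x i k ∈ Set.Icc (0 : ℝ) L},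
    ∏ i, ∏ j ∈ Finset.Ioi i, S a (√(∑ k, (x i k - x j k) ^ 2))

/-- The thermodynamic limit: squares of side `L → ∞` and `N / L² → ρ`. -/
def Thermo (ρ : ℝ) (L : ℕ → ℝ) (N : ℕ → ℕ) : Prop :=
  Tendsto L atTop atTop ∧ Tendsto (fun k => (N k : ℝ) / L k ^ 2) atTop (𝓝 ρ)

/-- `y` is the limiting free energy per particle of hard disks of radius `a` at density `ρ`. -/
def IsFreeEnergy (a ρ y : ℝ) : Prop := ∀ (L : ℕ → ℝ) (N : ℕ → ℕ), Thermo ρ L N →
  Tendsto (fun k => -(1 / (N k : ℝ)) * Real.log (Z 2 a (L k) (N k))) atTop (𝓝 y)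

/-- The close-packing density of disks of radius `a`. -/
noncomputable def ρ₀ (a : ℝ) : ℝ := 1 / (2 * √3 * a ^ 2)

/-- The volume per particle at close packing. -/
noncomputable def v₀ (a : ℝ) : ℝ := 2 * √3 * a ^ 2

open Pool.Agent.J4.H83.FV in
theorem result : ∃ C : ℝ, 1 ≤ C ∧ ∀ a : ℝ, 0 < a →
    -- (0) `ρ₀` is the close-packing density
    (∀ ρ, ρ₀ a < ρ → ∀ L N, Thermo ρ L N → ∀ᶠ k in atTop, Z 2 a (L k) (N k) = 0) ∧
    -- (1) the free volume law up to constants, for all sequences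
    (∀ ρ, 0 < ρ → ρ < ρ₀ a → ∀ L N, Thermo ρ L N → ∀ᶠ k in atTop, 0 < Z 2 a (L k) (N k) ∧
      |-(1 / (N k : ℝ)) * Real.log (Z 2 a (L k) (N k)) -
        (Real.log ρ - 2 * Real.log (1 - ρ / ρ₀ a))| ≤ C) ∧
    ∀ f : ℝ → ℝ, (∀ ρ, 0 < ρ → ρ < ρ₀ a → IsFreeEnergy a ρ (f ρ)) →
      -- (2) the limiting free energy
      (∀ ρ, 0 < ρ → ρ < ρ₀ a → |f ρ - (Real.log ρ - 2 * Real.log (1 - ρ / ρ₀ a))| ≤ C) ∧
      -- (3) the pressure
      (∀ v₁ v₂, v₀ a < v₁ → v₁ < v₂ →
        1 / (C * (v₂ - v₀ a)) ≤ (f (1 / v₁) - f (1 / v₂)) / (v₂ - v₁) ∧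
        (f (1 / v₁) - f (1 / v₂)) / (v₂ - v₁) ≤ C / (v₁ - v₀ a)) ∧
      -- (4) first order phase transitions
      (∀ v₁ v₂ A P, v₀ a < v₁ → v₁ < v₂ → (∀ v ∈ Icc v₁ v₂, f (1 / v) = A - P * v) →
        v₂ - v₀ a ≤ C ^ 2 * (v₁ - v₀ a)) := by
  obtain ⟨C, hC1, hseq, hf⟩ := main_norm
  have hC0 : 0 < C := by linarith
  refine ⟨C, hC1, fun a ha => ?_⟩
  have h2a : 0 < 2 * a := by positivity
  have h3p : 0 < √3 := by positivity
  have h3 := sqrt3_sq
  have hρ₀ : ρ₀ a = rc / (2 * a) ^ 2 := by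
    unfold ρ₀ rc
    field_simp
  have hv₀ : v₀ a = (2 * a) ^ 2 * vc := by
    unfold v₀ vc
    ring
  have hZ : ∀ L N, Z 2 a L N = Pool.Agent.J4.H83.FV.Z 2 a L N := fun _ _ => rfl
  -- scaling of sequences
  have hT : ∀ {ρ : ℝ} {L : ℕ → ℝ} {N : ℕ → ℕ}, Thermo ρ L N →
      Tendsto (fun k => L k / (2 * a)) atTop atTop ∧
        Tendsto (fun k => (N k : ℝ) / (L k / (2 * a)) ^ 2) atTop (𝓝 ((2 * a) ^ 2 * ρ)) := by
    intro ρ L N h
    refine ⟨h.1.atTop_div_const h2a, (h.2.const_mul ((2 * a) ^ 2)).congr fun k => ?_⟩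
    rw [div_pow, div_div_eq_mul_div]
    ring
  have hρr : ∀ {ρ : ℝ}, ρ < ρ₀ a → (2 * a) ^ 2 * ρ < rc := by
    intro ρ h
    rw [hρ₀, lt_div_iff₀ (by positivity)] at h
    linarith
  have hlogeq : ∀ {ρ : ℝ}, 0 < ρ → Real.log ((2 * a) ^ 2 * ρ) - 2 * Real.log (1 - (2 * a) ^ 2 * ρ / rc) =
      Real.log ρ - 2 * Real.log (1 - ρ / ρ₀ a) + 2 * Real.log (2 * a) := by
    intro ρ h
    have e : (2 * a) ^ 2 * ρ / rc = ρ / ρ₀ a := by
      rw [hρ₀]; have := rc_pos; field_simp
    rw [e, Real.log_mul (by positivity) h.ne', Real.log_pow]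
    push_cast
    ring
  have part1 : ∀ ρ, 0 < ρ → ρ < ρ₀ a → ∀ L N, Thermo ρ L N → ∀ᶠ k in atTop,
      0 < Z 2 a (L k) (N k) ∧ |-(1 / (N k : ℝ)) * Real.log (Z 2 a (L k) (N k)) -
        (Real.log ρ - 2 * Real.log (1 - ρ / ρ₀ a))| ≤ C := by
    intro ρ h1 h2 L N h
    obtain ⟨t1, t2⟩ := hT h
    filter_upwards [hseq _ (by positivity) (hρr h2) _ N t1 t2] with k hk
    obtain ⟨k1, k2, k3⟩ := hk
    rw [hZ, log_Z ha k1 k2, Z_scale ha]
    refine ⟨by positivity, ?_⟩
    rw [hlogeq h1] at k3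
    convert k3 using 2
    ring
  refine ⟨?_, part1, fun f hfe => ?_⟩
  · -- close packing
    intro ρ hρ L N h
    obtain ⟨t1, t2⟩ := hT h
    have hρ' : rc < (2 * a) ^ 2 * ρ := by
      rw [hρ₀, div_lt_iff₀ (by positivity)] at hρ
      linarith
    have hlim : Tendsto (fun k => ((L k / (2 * a) + 2 * R) / (L k / (2 * a))) ^ 2 -
        √3 / 2 * ((N k : ℝ) / (L k / (2 * a)) ^ 2)) atTop (𝓝 (1 ^ 2 - √3 / 2 * ((2 * a) ^ 2 * ρ))) := by
      refine Tendsto.sub (Tendsto.pow ?_ 2) (t2.const_mul _)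
      have h1 : Tendsto (fun k => 1 + 2 * R / (L k / (2 * a))) atTop (𝓝 (1 + 0)) :=
        tendsto_const_nhds.add (t1.const_div_atTop _)
      rw [add_zero] at h1
      refine h1.congr' ?_
      filter_upwards [t1.eventually_gt_atTop 0] with k hk
      have : L k / (2 * a) ≠ 0 := hk.ne'
      rw [add_div, div_self this]
    have hneg : (1 : ℝ) ^ 2 - √3 / 2 * ((2 * a) ^ 2 * ρ) < 0 := by
      rw [half_rc, one_pow, one_div, inv_mul_eq_div]
      have : 1 < (2 * a) ^ 2 * ρ / rc := by rw [lt_div_iff₀ rc_pos]; linarith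
      linarith
    filter_upwards [hlim.eventually (gt_mem_nhds hneg), t1.eventually_gt_atTop 0] with k hk hk0
    have hemp : Pool.Agent.J4.H83.FV.A (N k) (L k / (2 * a)) = ∅ := by
      by_contra hne
      obtain ⟨x, hx⟩ := Set.nonempty_iff_ne_empty.2 hne
      have hs := sum_ex x hk0.le hx.1 hx.2
      obtain ⟨ε₀, -, C', -, hst⟩ := structure_thm
      have hpos : 0 ≤ ∑ i, ex x i := Finset.sum_nonneg fun i _ => (hst _ x hx.2 i).1
      have h2 : 0 < (L k / (2 * a)) ^ 2 := by positivity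
      have h4 : (((L k / (2 * a) + 2 * R) / (L k / (2 * a))) ^ 2 -
          √3 / 2 * ((N k : ℝ) / (L k / (2 * a)) ^ 2)) * (L k / (2 * a)) ^ 2 =
          (L k / (2 * a) + 2 * R) ^ 2 - √3 / 2 * (N k) := by
        have hne' : L k / (2 * a) ≠ 0 := hk0.ne'
        set y := L k / (2 * a)
        field_simp
      have h5 := mul_neg_of_neg_of_pos hk h2
      rw [h4] at h5
      linarith
    rw [hZ, Z_scale ha, zr_eq, hemp]
    simp
  -- the limiting free energy
  set g : ℝ → ℝ := fun ρ => f (ρ / (2 * a) ^ 2) + 2 * Real.log (2 * a) with hg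
  have hgFE : ∀ ρ, 0 < ρ → ρ < rc → IsFE ρ (g ρ) := by
    intro ρ h1 h2 L N hL hN
    have hr0 : 0 < ρ / (2 * a) ^ 2 := by positivity
    have hr1 : ρ / (2 * a) ^ 2 < ρ₀ a := by
      rw [hρ₀]; exact div_lt_div_of_pos_right h2 (by positivity)
    have hth : Thermo (ρ / (2 * a) ^ 2) (fun k => 2 * a * L k) N := by
      refine ⟨hL.const_mul_atTop h2a, (hN.div_const ((2 * a) ^ 2)).congr fun k => ?_⟩
      rw [div_div]
      ring
    have h5 := (hfe _ hr0 hr1 _ N hth).add_const (2 * Real.log (2 * a))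
    refine h5.congr' ?_
    filter_upwards [hseq ρ h1 h2 L N hL hN] with k hk
    obtain ⟨k1, k2, -⟩ := hk
    have e : 2 * a * L k / (2 * a) = L k := by field_simp
    rw [hZ, log_Z ha k1 (by rw [e]; exact k2), e]
    ring
  obtain ⟨hg1, hg2⟩ := hf g hgFE
  have hpress : ∀ v₁ v₂, v₀ a < v₁ → v₁ < v₂ →
      1 / (C * (v₂ - v₀ a)) ≤ (f (1 / v₁) - f (1 / v₂)) / (v₂ - v₁) ∧
      (f (1 / v₁) - f (1 / v₂)) / (v₂ - v₁) ≤ C / (v₁ - v₀ a) := by
    intro v₁ v₂ h1 h12
    have h4a : 0 < (2 * a) ^ 2 := by positivity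
    have hvc := vc_pos
    have hv1 : 0 < v₁ := by rw [hv₀] at h1; exact (by positivity : (0 : ℝ) < (2 * a) ^ 2 * vc).trans h1
    have hv2 : 0 < v₂ := hv1.trans h12
    have a1 : vc < v₁ / (2 * a) ^ 2 := by
      rw [lt_div_iff₀ h4a]; rw [hv₀] at h1; linarith
    have a2 : v₁ / (2 * a) ^ 2 < v₂ / (2 * a) ^ 2 := div_lt_div_of_pos_right h12 h4a
    have hh := hg2 _ _ a1 a2
    have e1 : ∀ v : ℝ, g (1 / (v / (2 * a) ^ 2)) = f (1 / v) + 2 * Real.log (2 * a) := by
      intro v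
      rw [hg]
      simp only
      congr 2
      rw [one_div_div, div_right_comm, div_self h4a.ne']
    rw [e1, e1] at hh
    have e2 : (f (1 / v₁) + 2 * Real.log (2 * a) - (f (1 / v₂) + 2 * Real.log (2 * a))) /
        (v₂ / (2 * a) ^ 2 - v₁ / (2 * a) ^ 2) =
        (2 * a) ^ 2 * ((f (1 / v₁) - f (1 / v₂)) / (v₂ - v₁)) := by
      have : v₂ - v₁ ≠ 0 := by linarith
      rw [← sub_div]
      field_simp
      ring
    have e3 : 1 / (C * (v₂ / (2 * a) ^ 2 - vc)) = (2 * a) ^ 2 * (1 / (C * (v₂ - v₀ a))) := by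
      have : v₂ - (2 * a) ^ 2 * vc ≠ 0 := by rw [hv₀] at h1; linarith
      have e4 : v₂ / (2 * a) ^ 2 - vc = (v₂ - (2 * a) ^ 2 * vc) / (2 * a) ^ 2 := by field_simp
      rw [hv₀, e4]
      field_simp
    have e5 : C / (v₁ / (2 * a) ^ 2 - vc) = (2 * a) ^ 2 * (C / (v₁ - v₀ a)) := by
      have : v₁ - (2 * a) ^ 2 * vc ≠ 0 := by rw [hv₀] at h1; linarith
      have e4 : v₁ / (2 * a) ^ 2 - vc = (v₁ - (2 * a) ^ 2 * vc) / (2 * a) ^ 2 := by field_simp
      rw [hv₀, e4]
      field_simp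
    rw [e2, e3, e5] at hh
    exact ⟨le_of_mul_le_mul_left hh.1 h4a, le_of_mul_le_mul_left hh.2 h4a⟩
  refine ⟨?_, hpress, ?_⟩
  · intro ρ h1 h2
    have h5 := hg1 _ (by positivity) (hρr h2)
    rw [hlogeq h1] at h5
    have e : g ((2 * a) ^ 2 * ρ) = f ρ + 2 * Real.log (2 * a) := by
      rw [hg]
      simp only
      congr 2
      field_simp
    rw [e] at h5
    convert h5 using 2
    ring
  · intro v₁ v₂ A P h1 h12 haff
    by_contra hcon
    push Not at hcon
    set G := v₂ - v₀ a - C ^ 2 * (v₁ - v₀ a) with hG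
    have hG0 : 0 < G := by rw [hG]; linarith
    set ε := min ((v₂ - v₁) / 2) (G / (2 * (C ^ 2 + 1))) with hε
    have hd : 0 < v₂ - v₁ := by linarith
    have hε0 : 0 < ε := lt_min (by positivity) (by positivity)
    have hε1 : ε ≤ (v₂ - v₁) / 2 := min_le_left _ _
    have hε2 : ε * (2 * (C ^ 2 + 1)) ≤ G := by
      have : ε ≤ G / (2 * (C ^ 2 + 1)) := min_le_right _ _
      rwa [le_div_iff₀ (by positivity)] at this
    have p1 := (hpress v₁ (v₁ + ε) h1 (by linarith)).1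
    have p2 := (hpress (v₂ - ε) v₂ (by linarith) (by linarith)).2
    have q1 := haff v₁ ⟨le_rfl, h12.le⟩
    have q2 := haff (v₁ + ε) ⟨by linarith, by linarith⟩
    have q3 := haff (v₂ - ε) ⟨by linarith, by linarith⟩
    have q4 := haff v₂ ⟨h12.le, le_rfl⟩
    have r1 : (f (1 / v₁) - f (1 / (v₁ + ε))) / (v₁ + ε - v₁) = P := by
      rw [q1, q2, show A - P * v₁ - (A - P * (v₁ + ε)) = P * ε by ring,
        show v₁ + ε - v₁ = ε by ring, mul_div_assoc, div_self hε0.ne', mul_one]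
    have r2 : (f (1 / (v₂ - ε)) - f (1 / v₂)) / (v₂ - (v₂ - ε)) = P := by
      rw [q3, q4, show A - P * (v₂ - ε) - (A - P * v₂) = P * ε by ring,
        show v₂ - (v₂ - ε) = ε by ring, mul_div_assoc, div_self hε0.ne', mul_one]
    rw [r1] at p1
    rw [r2] at p2
    have s1 : 0 < v₁ + ε - v₀ a := by linarith
    have s2 : 0 < v₂ - ε - v₀ a := by linarith
    have p3 := p1.trans p2
    rw [div_le_div_iff₀ (by positivity) s2] at p3
    have p4 : v₂ - ε - v₀ a ≤ C ^ 2 * (v₁ + ε - v₀ a) := by linarith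
    have p5 : G ≤ (C ^ 2 + 1) * ε := by rw [hG]; linarith
    nlinarith

end Pool.Agent.Results.MP_09cbbd_mp.FreeVolumeLaw
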